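import Pool.Agent.Q283.LS.Stm

/-!
# Project LS (helper283), job DES: descent to `F`
-/

set_option autoImplicit false

namespace Pool.Agent.Q166.LS

open NumberField Pool.Agent.Q283.LS

/-- independence modulo the multiples of `u` is linear independence in the quotient -/
theorem ind_iff {X : Type} (u : X → ℤ_[2]) {t : ℕ} (f : Fin t → X → ℤ_[2]) :
    (∀ a : Fin t → ℤ_[2], (∃ b : ℤ_[2], ∀ σ, ∑ i, a i * f i σ = u σ * b) → a = 0) ↔
      LinearIndependent ℤ_[2] (fun i => (Submodule.span ℤ_[2] {u}).mkQ (f i)) := by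
  have key : ∀ a : Fin t → ℤ_[2], (∑ i, a i • (Submodule.span ℤ_[2] {u}).mkQ (f i) = 0) ↔
      ∃ b : ℤ_[2], ∀ σ, ∑ i, a i * f i σ = u σ * b := by
    intro a
    have h1 : ∑ i, a i • (Submodule.span ℤ_[2] {u}).mkQ (f i) =
        (Submodule.span ℤ_[2] {u}).mkQ (∑ i, a i • f i) := by
      simp only [map_sum, map_smul]
    rw [h1, Submodule.mkQ_apply, Submodule.Quotient.mk_eq_zero, Submodule.mem_span_singleton]
    constructor
    · rintro ⟨b, hb⟩
      refine ⟨b, fun σ => ?_⟩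
      have := congrFun hb σ
      simp only [Pi.smul_apply, smul_eq_mul, Finset.sum_apply] at this
      rw [← this, mul_comm]
    · rintro ⟨b, hb⟩
      refine ⟨b, ?_⟩
      funext σ
      simp only [Pi.smul_apply, smul_eq_mul, Finset.sum_apply]
      rw [hb σ, mul_comm]
  rw [Fintype.linearIndependent_iff]
  constructor
  · intro h a ha i
    exact congrFun (h a ((key a).1 ha)) i
  · intro h a ha
    funext i
    exact h a ((key a).2 ha) i

section

variable {Ω : Type} [Field Ω] [CharZero Ω]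

theorem insha_zero (S : Set ℕ) {H : Subgroup (Ω ≃ₐ[ℚ] Ω)} (ρ : H → ℤ_[2]) :
    InSha S ρ (0 : H → ℤ_[2]) where
  coc := ⟨continuous_const, fun σ τ => by simp⟩
  unr := fun l _ _ j σ _ => rfl
  loc := fun l _ _ j => ⟨0, fun σ _ => by simp⟩
  real := fun j => ⟨0, fun σ _ => by simp⟩

theorem insha_add {S : Set ℕ} {H : Subgroup (Ω ≃ₐ[ℚ] Ω)} {ρ f g : H → ℤ_[2]}
    (hf : InSha S ρ f) (hg : InSha S ρ g) : InSha S ρ (f + g) where
  coc := ⟨hf.coc.cont.add hg.coc.cont, fun σ τ => by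
    simp only [Pi.add_apply, hf.coc.coc σ τ, hg.coc.coc σ τ]; ring⟩
  unr := fun l _ hl j σ hσ => by
    simp only [Pi.add_apply, hf.unr l hl j σ hσ, hg.unr l hl j σ hσ, add_zero]
  loc := fun l _ hl j => by
    obtain ⟨b, hb⟩ := hf.loc l hl j
    obtain ⟨c, hc⟩ := hg.loc l hl j
    refine ⟨b + c, fun σ hσ => ?_⟩
    simp only [Pi.add_apply, hb σ hσ, hc σ hσ]; ring
  real := fun j => by
    obtain ⟨b, hb⟩ := hf.real j
    obtain ⟨c, hc⟩ := hg.real j
    refine ⟨b + c, fun σ hσ => ?_⟩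
    simp only [Pi.add_apply, hb σ hσ, hc σ hσ]; ring

theorem insha_smul {S : Set ℕ} {H : Subgroup (Ω ≃ₐ[ℚ] Ω)} {ρ f : H → ℤ_[2]} (a : ℤ_[2])
    (hf : InSha S ρ f) : InSha S ρ (a • f) where
  coc := ⟨hf.coc.cont.const_smul a, fun σ τ => by
    simp only [Pi.smul_apply, smul_eq_mul, hf.coc.coc σ τ]; ring⟩
  unr := fun l _ hl j σ hσ => by
    simp only [Pi.smul_apply, hf.unr l hl j σ hσ, smul_zero]
  loc := fun l _ hl j => by
    obtain ⟨b, hb⟩ := hf.loc l hl j
    refine ⟨a * b, fun σ hσ => ?_⟩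
    simp only [Pi.smul_apply, smul_eq_mul, hb σ hσ]; ring
  real := fun j => by
    obtain ⟨b, hb⟩ := hf.real j
    refine ⟨a * b, fun σ hσ => ?_⟩
    simp only [Pi.smul_apply, smul_eq_mul, hb σ hσ]; ring

theorem insha_span {S : Set ℕ} {H : Subgroup (Ω ≃ₐ[ℚ] Ω)} {ρ : H → ℤ_[2]} {n : ℕ}
    {f : Fin n → H → ℤ_[2]} (hf : ∀ i, InSha S ρ (f i)) {g : H → ℤ_[2]}
    (hg : g ∈ Submodule.span ℤ_[2] (Set.range f)) : InSha S ρ g := by
  induction hg using Submodule.span_induction with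
  | mem y hy => obtain ⟨i, rfl⟩ := hy; exact hf i
  | zero => exact insha_zero S ρ
  | add y z _ _ hy hz => exact insha_add hy hz
  | smul a y _ hy => exact insha_smul a hy

end

/-- elements of the span of the images lift to the span -/
theorem lift_span {M : Type} [AddCommGroup M] [Module ℤ_[2] M] (P : Submodule ℤ_[2] M) {n : ℕ}
    (f : Fin n → M) (y : M ⧸ P)
    (hy : y ∈ Submodule.span ℤ_[2] (Set.range fun i => P.mkQ (f i))) :
    ∃ z ∈ Submodule.span ℤ_[2] (Set.range f), P.mkQ z = y := by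
  have h1 : (Set.range fun i => P.mkQ (f i)) = P.mkQ '' (Set.range f) := by
    rw [← Set.range_comp]; rfl
  rw [h1, ← Submodule.map_span] at hy
  obtain ⟨z, hz, hzy⟩ := Submodule.mem_map.1 hy
  exact ⟨z, hz, hzy⟩

theorem des (hCOR : Pool.Agent.Q283.LS.S_COR) (hLA3 : Pool.Agent.Q283.LS.S_LA3) :
    Pool.Agent.Q283.LS.S_DES := by
  intro Ω _ _ _ _ F _ d x hx hd S r s t h2S hr hns hrank
  obtain ⟨C, C', hC1, hC2, hC3⟩ := hCOR Ω F d x hx hd S r h2S hr
  obtain ⟨f, hf, hfi⟩ := hrank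
  set uH : (F ⊔ IntermediateField.adjoin ℚ {x}).fixingSubgroup → ℤ_[2] :=
    fun σ => chi σ.1 ^ r - 1 with huH
  set uG : F.fixingSubgroup → ℤ_[2] := fun σ => chi σ.1 ^ r - 1 with huG
  set P := Submodule.span ℤ_[2] {uH} with hP
  set Q := Submodule.span ℤ_[2] {uG} with hQ
  have hPQ : P ≤ Q.comap C := by
    rw [hP, Submodule.span_le, Set.singleton_subset_iff]
    obtain ⟨b', hb'⟩ := hC2 1
    have : C uH = b' • uG := by
      have h1 : (fun σ : (F ⊔ IntermediateField.adjoin ℚ {x}).fixingSubgroup =>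
          (chi σ.1 ^ r - 1) * (1 : ℤ_[2])) = uH := by
        funext σ; simp [huH]
      rw [h1] at hb'
      rw [hb']
      funext σ
      simp only [huG, Pi.smul_apply, smul_eq_mul]
      ring
    rw [SetLike.mem_coe, Submodule.mem_comap, this]
    exact Submodule.smul_mem _ _ (Submodule.mem_span_singleton_self _)
  have hli : LinearIndependent ℤ_[2] (fun i => P.mkQ (f i)) := (ind_iff uH f).1 hfi
  obtain ⟨b, hb, hb2⟩ := hLA3 _ _ (P.mapQ Q C hPQ) s t (fun i => P.mkQ (f i)) hli (by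
    rintro ⟨y, hy, hyi⟩
    choose z hz hzy using fun i => lift_span P f (y i) (hy i)
    apply hns
    refine ⟨fun i => C (z i), fun i => (hC1 _ (insha_span hf (hz i))).1, ?_⟩
    have h1 : LinearIndependent ℤ_[2] (fun i => Q.mkQ (C (z i))) := by
      have h2 : (fun i => (P.mapQ Q C hPQ) (y i)) = fun i => Q.mkQ (C (z i)) := by
        funext i
        rw [← hzy i]
        rfl
      rw [← h2]; exact hyi
    exact (ind_iff uG _).2 h1)
  choose c hc hcb using fun i => lift_span P f (b i) (hb2 i).1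
  have hβ : ∀ i, ∃ β : ℤ_[2], ∀ σ : F.fixingSubgroup, C (c i) σ = (chi σ.1 ^ r - 1) * β := by
    intro i
    have h1 := (hb2 i).2
    rw [← hcb i] at h1
    have h2 : C (c i) ∈ Q := (Submodule.Quotient.mk_eq_zero Q).1 h1
    obtain ⟨β, hβ⟩ := Submodule.mem_span_singleton.1 h2
    refine ⟨β, fun σ => ?_⟩
    rw [← hβ]
    simp only [huG, Pi.smul_apply, smul_eq_mul]
    ring
  choose β hβ using hβ
  refine ⟨fun i => C' (c i), fun i => (hC1 _ (insha_span hf (hc i))).2, ?_⟩
  rintro a ⟨e, he⟩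
  have hbl : LinearIndependent ℤ_[2] (fun i => P.mkQ (c i)) := by
    have : (fun i => P.mkQ (c i)) = b := funext hcb
    rw [this]; exact hb
  have h3 := (ind_iff uH c).2 hbl (fun i => 2 * a i) ⟨e + ∑ i, a i * β i, fun σ => ?_⟩
  · funext i
    have := congrFun h3 i
    simp only [Pi.zero_apply, mul_eq_zero] at this
    rcases this with h | h
    · exact absurd h two_ne_zero
    · exact h
  · have hle : F ≤ F ⊔ IntermediateField.adjoin ℚ {x} := le_sup_left
    have hσ : σ.1 ∈ F.fixingSubgroup := IntermediateField.fixingSubgroup_antitone hle σ.2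
    have hxm : x ∈ F ⊔ IntermediateField.adjoin ℚ {x} :=
      (le_sup_right : IntermediateField.adjoin ℚ {x} ≤ F ⊔ IntermediateField.adjoin ℚ {x})
        (IntermediateField.mem_adjoin_simple_self ℚ x)
    have hσx : σ.1 x = x := (IntermediateField.mem_fixingSubgroup_iff _ _).1 σ.2 x hxm
    have h4 := he ⟨σ.1, hσ⟩
    have h5 : ∀ i, C' (c i) ⟨σ.1, hσ⟩ = 2 * c i σ - (chi σ.1 ^ r - 1) * β i := by
      intro i
      have h6 := hC3 (c i) σ ⟨σ.1, hσ⟩ rfl
      rw [hβ i ⟨σ.1, hσ⟩] at h6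
      linear_combination h6
    simp only [h5, sgn, if_pos hσx, mul_one] at h4
    have h7 : ∑ i, a i * (2 * c i σ - (chi σ.1 ^ r - 1) * β i) =
        ∑ i, 2 * a i * c i σ - (chi σ.1 ^ r - 1) * ∑ i, a i * β i := by
      rw [Finset.mul_sum, ← Finset.sum_sub_distrib]
      exact Finset.sum_congr rfl fun i _ => by ring
    rw [h7] at h4
    simp only [huH]
    linear_combination h4

end Pool.Agent.Q166.LS
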